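import Mathlib

/-!
# Optimal colourings of `K_n` without a rainbow cycle of length `n - 2`

Let `k ≥ 3` and let `n = 2 ^ k` or `n = 2 ^ k - 1`. Take `n` vectors of `(ZMod 2) ^ k` as the vertices
and colour the edge `x y` with `x + y`. This is an optimal colouring. The colours along a cycle sum to
zero, and so do all the nonzero vectors. A rainbow cycle of length `n - 2` misses one of the nonzero
vectors if `n = 2 ^ k` and two of them if `n = 2 ^ k - 1`; in both cases the missing ones do not sum to
zero, so there is no such cycle.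
-/

set_option autoImplicit false

namespace Pool.Agent.Results.MP_4bc86c_co.NoRainbowCycle

open Finset

/-- `c` restricts to a proper edge colouring of the complete graph on `Fin n`: edges sharing a vertex
get different colours. (The values of `c` on the diagonal play no role.) -/
def IsProper {n : ℕ} (c : Sym2 (Fin n) → ℕ) : Prop :=
  ∀ e ∈ (⊤ : SimpleGraph (Fin n)).edgeSet, ∀ f ∈ (⊤ : SimpleGraph (Fin n)).edgeSet,
    e ≠ f → (∃ v, v ∈ e ∧ v ∈ f) → c e ≠ c f

/-- The number of colours used by `c` on the edges of the complete graph. -/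
noncomputable def numColours {n : ℕ} (c : Sym2 (Fin n) → ℕ) : ℕ :=
  (c '' (⊤ : SimpleGraph (Fin n)).edgeSet).ncard

/-- `c` is an optimal colouring of the edges of `K_n`: it is proper and uses the least possible number
of colours. -/
def IsOptimal {n : ℕ} (c : Sym2 (Fin n) → ℕ) : Prop :=
  IsProper c ∧ ∀ c' : Sym2 (Fin n) → ℕ, IsProper c' → numColours c ≤ numColours c'

/-- There is a rainbow cycle of length `L`: a cycle with `L` edges which have pairwise distinct
colours. -/
def HasRainbowCycle {n : ℕ} (c : Sym2 (Fin n) → ℕ) (L : ℕ) : Prop :=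
  ∃ (u : Fin n) (p : (⊤ : SimpleGraph (Fin n)).Walk u u),
    p.IsCycle ∧ p.length = L ∧ (p.edges.map c).Nodup

/-! ### lower bounds for the number of colours -/

lemma proper_vertex {n : ℕ} {c : Sym2 (Fin n) → ℕ} (hc : IsProper c) (v : Fin n) {a b : Fin n}
    (ha : a ≠ v) (hb : b ≠ v) (h : c s(v, a) = c s(v, b)) : a = b := by
  by_contra hab
  refine hc s(v, a) ?_ s(v, b) ?_ ?_ ⟨v, by simp, by simp⟩ h
  · simpa using ha.symm
  · simpa using hb.symm
  · intro h'
    rw [Sym2.congr_right] at h'
    exact hab h'

lemma colours_at {n : ℕ} {c : Sym2 (Fin n) → ℕ} (hc : IsProper c) (v : Fin n) :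
    (((univ.erase v).image fun a => c s(v, a)) : Finset ℕ).card = n - 1 := by
  rw [card_image_of_injOn, card_erase_of_mem (mem_univ _), card_univ, Fintype.card_fin]
  intro a ha b hb h
  simp only [coe_erase, coe_univ, Set.mem_diff, Set.mem_univ, Set.mem_singleton_iff, true_and]
    at ha hb
  exact proper_vertex hc v ha hb h

lemma colours_at_subset {n : ℕ} (c : Sym2 (Fin n) → ℕ) (v : Fin n) :
    ((((univ.erase v).image fun a => c s(v, a)) : Finset ℕ) : Set ℕ) ⊆
      c '' (⊤ : SimpleGraph (Fin n)).edgeSet := by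
  intro x hx
  simp only [coe_image, coe_erase, coe_univ, Set.mem_image, Set.mem_diff, Set.mem_univ,
    Set.mem_singleton_iff, true_and] at hx
  obtain ⟨a, ha, rfl⟩ := hx
  exact ⟨s(v, a), by simpa using Ne.symm ha, rfl⟩

lemma finite_colours {n : ℕ} (c : Sym2 (Fin n) → ℕ) :
    (c '' (⊤ : SimpleGraph (Fin n)).edgeSet).Finite := (Set.toFinite _).image _

lemma lower_even {n : ℕ} (hn : 1 ≤ n) {c : Sym2 (Fin n) → ℕ} (hc : IsProper c) :
    n - 1 ≤ numColours c := by
  have h1 := colours_at hc ⟨0, hn⟩
  have h2 := Set.ncard_le_ncard (colours_at_subset c ⟨0, hn⟩) (finite_colours c)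
  rw [Set.ncard_coe_finset, h1] at h2
  exact h2

lemma lower_odd {n : ℕ} (hn : 1 < n) (hodd : Odd n) {c : Sym2 (Fin n) → ℕ} (hc : IsProper c) :
    n ≤ numColours c := by
  by_contra hlt
  have hle : numColours c ≤ n - 1 := by omega
  -- every vertex sees every colour
  have hall : ∀ v : Fin n, ((((univ.erase v).image fun a => c s(v, a)) : Finset ℕ) : Set ℕ) =
      c '' (⊤ : SimpleGraph (Fin n)).edgeSet := by
    intro v
    refine Set.eq_of_subset_of_ncard_le (colours_at_subset c v) ?_ (finite_colours c)
    rw [Set.ncard_coe_finset, colours_at hc v]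
    exact hle
  -- fix a colour
  let v0 : Fin n := ⟨0, by omega⟩
  let v1 : Fin n := ⟨1, hn⟩
  have h01 : v0 ≠ v1 := by
    intro h
    have := congrArg Fin.val h
    simp [v0, v1] at this
  set x := c s(v0, v1) with hx
  have hxmem : x ∈ c '' (⊤ : SimpleGraph (Fin n)).edgeSet := ⟨s(v0, v1), by simpa using h01, rfl⟩
  have hpart : ∀ v : Fin n, ∃ a : Fin n, a ≠ v ∧ c s(v, a) = x := by
    intro v
    have h1 : x ∈ ((((univ.erase v).image fun a => c s(v, a)) : Finset ℕ) : Set ℕ) := by
      rw [hall v]; exact hxmem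
    simp only [coe_image, coe_erase, coe_univ, Set.mem_image, Set.mem_diff, Set.mem_univ,
      Set.mem_singleton_iff, true_and] at h1
    obtain ⟨a, ha, h⟩ := h1
    exact ⟨a, ha, h⟩
  choose f hf1 hf2 using hpart
  have hinv : Function.Involutive f := by
    intro v
    refine proper_vertex hc (f v) (hf1 (f v)) (hf1 v).symm ?_
    rw [hf2 (f v), Sym2.eq_swap, hf2 v]
  have h2 : ∀ v, f v ≠ v := hf1
  -- an involution without fixed points on a set of odd size
  have h3 : (univ : Finset (Fin n)).card % 2 = 0 := by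
    have h4 : ∑ _v : Fin n, (1 : ZMod 2) = 0 := by
      refine Finset.sum_involution (fun v _ => f v) ?_ ?_ ?_ ?_
      · intro v _; decide
      · intro v _ _; exact h2 v
      · intro v _; exact mem_univ _
      · intro v _; exact hinv v
    simp only [sum_const, nsmul_eq_mul, mul_one] at h4
    rw [ZMod.natCast_eq_zero_iff] at h4
    omega
  rw [card_univ, Fintype.card_fin] at h3
  rw [Nat.odd_iff] at hodd
  omega

/-! ### the colouring by sums -/

section vectors

variable {k n : ℕ}

/-- the vectors -/
abbrev A (k : ℕ) : Type := Fin k → ZMod 2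

lemma add_self (x : A k) : x + x = 0 := by
  funext i
  exact CharTwo.add_self_eq_zero (x i)

lemma add_eq_zero {x y : A k} : x + y = 0 ↔ x = y := by
  constructor
  · intro h
    calc x = x + (y + y) := by rw [add_self, add_zero]
      _ = (x + y) + y := by abel
      _ = y := by rw [h, zero_add]
  · rintro rfl
    exact add_self x

/-- the sum of the two ends of an edge -/
def sm (e : Fin n → A k) : Sym2 (Fin n) → A k :=
  Sym2.lift ⟨fun x y => e x + e y, fun x y => add_comm _ _⟩

@[simp] lemma sm_mk (e : Fin n → A k) (x y : Fin n) : sm e s(x, y) = e x + e y := rfl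

lemma sm_inj (e : Fin n → A k) (he : Function.Injective e) {v a b : Fin n}
    (h : sm e s(v, a) = sm e s(v, b)) : a = b := by
  rw [sm_mk, sm_mk] at h
  exact he (add_left_cancel h)

lemma walk_sum (e : Fin n → A k) {u v : Fin n} (p : (⊤ : SimpleGraph (Fin n)).Walk u v) :
    (p.edges.map (sm e)).sum = e u + e v := by
  induction p with
  | nil => simp [add_self]
  | cons h p ih =>
    rw [SimpleGraph.Walk.edges_cons, List.map_cons, List.sum_cons, ih, sm_mk]
    rename_i a b c
    calc e a + e b + (e b + e c) = e a + (e b + e b) + e c := by abel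
      _ = e a + e c := by rw [add_self, add_zero]

lemma sum_univ (hk : 2 ≤ k) : ∑ x : A k, x = 0 := by
  funext i
  rw [Finset.sum_apply, Pi.zero_apply]
  obtain ⟨j, hj⟩ : ∃ j : Fin k, j ≠ i := by
    by_cases h : i = ⟨0, by omega⟩
    · refine ⟨⟨1, by omega⟩, ?_⟩
      rw [h]
      intro h'
      have := congrArg Fin.val h'
      simp at this
    · exact ⟨⟨0, by omega⟩, Ne.symm h⟩
  refine Finset.sum_involution (fun x _ => x + Pi.single j 1) ?_ ?_ ?_ ?_
  · intro x _
    simp only [Pi.add_apply, Pi.single_apply, if_neg hj.symm, add_zero]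
    exact CharTwo.add_self_eq_zero (x i)
  · intro x _ _ h
    have h1 := congrFun h j
    simp at h1
  · intro x _; exact mem_univ _
  · intro x _
    funext l
    simp only [Pi.add_apply]
    rw [add_assoc, CharTwo.add_self_eq_zero, add_zero]

/-- a code for the vectors -/
noncomputable def code : A k → ℕ := fun x => (Fintype.equivFin (A k) x).val

lemma code_inj : Function.Injective (code (k := k)) :=
  Fin.val_injective.comp (Fintype.equivFin (A k)).injective

/-- the colouring by sums -/
noncomputable def col (e : Fin n → A k) : Sym2 (Fin n) → ℕ := fun s => code (sm e s)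

lemma col_proper (e : Fin n → A k) (he : Function.Injective e) : IsProper (col e) := by
  rintro s _ t _ hst ⟨v, hv, hv'⟩ h
  obtain ⟨a, rfl⟩ := hv
  obtain ⟨b, rfl⟩ := hv'
  have := sm_inj e he (code_inj h)
  exact hst (by rw [this])

lemma numColours_le (e : Fin n → A k) (he : Function.Injective e) :
    numColours (col e) ≤ 2 ^ k - 1 := by
  have h1 : col e '' (⊤ : SimpleGraph (Fin n)).edgeSet ⊆
      ((((univ : Finset (A k)).erase 0).image code : Finset ℕ) : Set ℕ) := by
    rintro _ ⟨s, hs, rfl⟩
    induction s using Sym2.ind with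
    | _ x y =>
      have hxy : x ≠ y := by simpa using hs
      simp only [coe_image, coe_erase, coe_univ, Set.mem_image, Set.mem_diff, Set.mem_univ,
        Set.mem_singleton_iff, true_and]
      refine ⟨sm e s(x, y), ?_, rfl⟩
      rw [sm_mk, add_eq_zero]
      exact fun h => hxy (he h)
  have h2 := Set.ncard_le_ncard h1 (Finset.finite_toSet _)
  rw [Set.ncard_coe_finset, card_image_of_injective _ code_inj, card_erase_of_mem (mem_univ _),
    card_univ] at h2
  have h3 : Fintype.card (A k) = 2 ^ k := by simp [A, ZMod.card]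
  rw [h3] at h2
  exact h2

lemma no_rainbow (hk : 2 ≤ k) (e : Fin n → A k) (he : Function.Injective e) (L : ℕ)
    (hL : L + 2 = 2 ^ k ∨ L + 3 = 2 ^ k) : ¬ HasRainbowCycle (col e) L := by
  rintro ⟨u, p, -, hlen, hnd⟩
  have hnd' : (p.edges.map (sm e)).Nodup := by
    have h1 : p.edges.map (col e) = (p.edges.map (sm e)).map code := by
      rw [List.map_map]; rfl
    rw [h1] at hnd
    exact List.Nodup.of_map _ hnd
  classical
  set S : Finset (A k) := (p.edges.map (sm e)).toFinset with hS
  have hcard : S.card = L := by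
    rw [hS, List.toFinset_card_of_nodup hnd', List.length_map, SimpleGraph.Walk.length_edges, hlen]
  have hsum : ∑ x ∈ S, x = 0 := by
    rw [hS, List.sum_toFinset _ hnd', List.map_id', walk_sum, add_self]
  have h0 : (0 : A k) ∉ S := by
    rw [hS, List.mem_toFinset, List.mem_map]
    rintro ⟨s, hs, h⟩
    have hs' := SimpleGraph.Walk.edges_subset_edgeSet p hs
    induction s using Sym2.ind with
    | _ x y =>
      have hxy : x ≠ y := by simpa using hs'
      rw [sm_mk, add_eq_zero] at h
      exact hxy (he h)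
  set T : Finset (A k) := univ \ (insert 0 S) with hT
  have hTcard : T.card = 2 ^ k - (L + 1) := by
    rw [hT, card_sdiff_of_subset (subset_univ _), card_insert_of_notMem h0, hcard, card_univ]
    simp [A, ZMod.card]
  have hTsum : ∑ x ∈ T, x = 0 := by
    have h1 : ∑ x ∈ T, x + ∑ x ∈ insert 0 S, x = ∑ x : A k, x := by
      rw [hT]; exact Finset.sum_sdiff (subset_univ _)
    rw [sum_insert h0, hsum, sum_univ hk, add_zero, add_zero] at h1
    exact h1
  have h0T : (0 : A k) ∉ T := by
    rw [hT]; simp
  rcases hL with hL | hL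
  · have h1 : T.card = 1 := by omega
    obtain ⟨a, ha⟩ := card_eq_one.1 h1
    rw [ha, sum_singleton] at hTsum
    exact h0T (by rw [ha, hTsum]; simp)
  · have h1 : T.card = 2 := by omega
    obtain ⟨a, b, hab, ha⟩ := card_eq_two.1 h1
    rw [ha, sum_pair hab, add_eq_zero] at hTsum
    exact hab hTsum

end vectors

/-- **Main theorem.** Let `k ≥ 3` and let `n = 2 ^ k` or `n = 2 ^ k - 1`. There is an optimal colouring
of the edges of `K_n` in which no cycle of length `n - 2` is rainbow. Hence it is false that every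
optimal edge colouring of every `K_n`, `n ≥ 5`, contains a rainbow cycle of length `n - 2`. -/
theorem result :
    (∀ k : ℕ, 3 ≤ k → ∀ n : ℕ, (n = 2 ^ k ∨ n = 2 ^ k - 1) →
      ∃ c : Sym2 (Fin n) → ℕ, IsOptimal c ∧ ¬ HasRainbowCycle c (n - 2)) ∧
    ¬ (∀ n : ℕ, 5 ≤ n → ∀ c : Sym2 (Fin n) → ℕ, IsOptimal c → HasRainbowCycle c (n - 2)) := by
  have key : ∀ k : ℕ, 3 ≤ k → ∀ n : ℕ, (n = 2 ^ k ∨ n = 2 ^ k - 1) →
      ∃ c : Sym2 (Fin n) → ℕ, IsOptimal c ∧ ¬ HasRainbowCycle c (n - 2) := by
    intro k hk n hn
    have h8 : 8 ≤ 2 ^ k := by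
      calc 8 = 2 ^ 3 := by norm_num
        _ ≤ 2 ^ k := Nat.pow_le_pow_right (by norm_num) hk
    have hcard : Fintype.card (A k) = 2 ^ k := by simp [A, ZMod.card]
    obtain ⟨e⟩ : Nonempty (Fin n ↪ A k) := by
      apply Function.Embedding.nonempty_of_card_le
      rw [hcard, Fintype.card_fin]
      omega
    refine ⟨col e, ⟨col_proper e e.injective, ?_⟩,
      no_rainbow (by omega) e e.injective (n - 2) (by omega)⟩
    intro c' hc'
    refine (numColours_le e e.injective).trans ?_
    rcases hn with hn | hn
    · have := lower_even (by omega) hc'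
      omega
    · have hodd : Odd n := by
        rw [Nat.odd_iff]
        have : 2 ^ k = 2 * 2 ^ (k - 1) := by
          rw [← pow_succ']; congr 1; omega
        omega
      have := lower_odd (by omega) hodd hc'
      omega
  refine ⟨key, fun H => ?_⟩
  obtain ⟨c, hc, hno⟩ := key 3 le_rfl 8 (Or.inl (by norm_num))
  exact hno (H 8 (by norm_num) c hc)

end Pool.Agent.Results.MP_4bc86c_co.NoRainbowCycle
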